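import Pool.Agent.Lib.MP_43823f_an.State

set_option autoImplicit false

open Pool.Agent.Lib.MP_43823f_an

/-- There are a quantum semigroup with weak cancellation and an idempotent state on it whose
support projection is not compact. -/
theorem Pool.Agent.Results.MP_43823f_an.NonCompactSupport.result :
    ∃ (A T : Type) (_ : NonUnitalCStarAlgebra A) (_ : NonUnitalCStarAlgebra T)
      (τ : MinTensor A A T) (δ : Comultiplication τ) (ω : Dual A) (p : Bidual A),
      WeakCancellation δ ∧ IsState ω ∧ IsIdempotent δ ω ∧ IsSupport ω p ∧ ¬ IsCompactProj p := by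
  let H := lp (fun _ : ℤ × P => ℂ) 2
  let b : HilbertBasis (ℤ × P) ℂ H := HilbertBasis.ofRepr (LinearIsometryEquiv.refl ℂ H)
  obtain ⟨K, _, _, _, U, h1, h2, h3⟩ := exists_intertwiner b
  have hU : ∀ u ∈ Gm b, u ∈ GLike U := fun u hu => Gm_le_GLike b U h1 h2 h3 hu
  exact ⟨KH b, KH (hbt b b), inferInstance, inferInstance, kTensor b b, qs b U hU, om b,
    bop b (Pe b), weakCancellation U hU, isState_om b, isIdempotent_om b U hU, isSupport b,
    not_isCompactProj b⟩
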